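import Pool.Agent.helper37.MW.Spec

set_option autoImplicit false

namespace Pool.Agent.helper37.MW

open Finset Pool.Agent.NK

theorem MPB_zero (p : ℕ) (ρ : ℝ) : mu (p + 1) 0 ρ = (1 - ρ) * mu p 0 ρ := by
  unfold mu
  simp only [Nat.choose_zero_right, Nat.cast_one, pow_zero, one_mul, Nat.sub_zero]
  ring

theorem MPB_succ (p i : ℕ) (ρ : ℝ) : mu (p + 1) (i + 1) ρ = (1 - ρ) * mu p (i + 1) ρ + ρ * mu p i ρ := by
  unfold mu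
  have e1 : p + 1 - (i + 1) = p - i := by omega
  rw [e1, Nat.choose_succ_succ, Nat.cast_add]
  rcases Nat.lt_or_ge p (i + 1) with h | h
  · rw [Nat.choose_eq_zero_of_lt h]
    push_cast
    ring
  · have e2 : p - i = (p - (i + 1)) + 1 := by omega
    rw [e2]
    ring

theorem MPB_up (p : ℕ) (ρ B : ℝ) (hB : 0 ≤ B) (h0 : 0 ≤ ρ) (h1 : ρ ≤ 1) (h : ∀ i, mu p i ρ ≤ B) :
    ∀ i, mu (p + 1) i ρ ≤ B := by
  intro i
  have hq : 0 ≤ 1 - ρ := by linarith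
  cases i with
  | zero =>
    rw [MPB_zero]
    have e1 := mul_le_mul_of_nonneg_left (h 0) hq
    have e2 : 0 ≤ ρ * B := mul_nonneg h0 hB
    linarith
  | succ i =>
    rw [MPB_succ]
    have e1 := mul_le_mul_of_nonneg_left (h (i + 1)) hq
    have e2 := mul_le_mul_of_nonneg_left (h i) h0
    linarith

theorem MPB_all (p₀ : ℕ) (ρ B : ℝ) (hB : 0 ≤ B) (h0 : 0 ≤ ρ) (h1 : ρ ≤ 1) (h : ∀ i, mu p₀ i ρ ≤ B) :
    ∀ d i, mu (p₀ + d) i ρ ≤ B := by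
  intro d
  induction d with
  | zero => exact h
  | succ d ih => exact MPB_up (p₀ + d) ρ B hB h0 h1 ih

theorem MPB_big (p i : ℕ) (ρ : ℝ) (h : p < i) : mu p i ρ = 0 := by
  unfold mu
  rw [Nat.choose_eq_zero_of_lt h]
  simp

theorem MPB_b5 (ρ : ℝ) (h1 : 1 / 3 ≤ ρ) (h2 : ρ ≤ 0.34) : ∀ i, mu 5 i ρ ≤ 0.333 := by
  intro i
  obtain ⟨q, hq⟩ : ∃ q : ℝ, q = 1 - ρ := ⟨_, rfl⟩
  have hρ0 : 0 ≤ ρ := by linarith
  have hq0 : 0 ≤ q := by norm_num at h2; linarith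
  have hq1 : q ≤ 2 / 3 := by linarith
  have hA : ρ * q ≤ 0.2244 := by
    rw [hq]; norm_num at h2 ⊢
    nlinarith [mul_nonneg (sub_nonneg.mpr h2) (by linarith : (0:ℝ) ≤ 33/50 - ρ)]
  have hG : ρ * q ^ 2 ≤ 4 / 27 := by
    rw [hq]; norm_num at h2
    nlinarith [mul_nonneg (sq_nonneg (ρ - 1/3)) (by linarith : (0:ℝ) ≤ 4/3 - ρ)]
  rcases Nat.lt_or_ge 5 i with hi | hi
  · rw [MPB_big 5 i ρ hi]; norm_num
  · unfold mu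
    rw [← hq]
    interval_cases i
    · calc ((5:ℕ).choose 0 : ℝ) * (ρ ^ 0 * q ^ (5 - 0)) = q ^ 5 := by norm_num
        _ ≤ (2 / 3) ^ 5 := by gcongr
        _ ≤ 0.333 := by norm_num
    · calc ((5:ℕ).choose 1 : ℝ) * (ρ ^ 1 * q ^ (5 - 1)) = 5 * ((ρ * q) * q ^ 3) := by norm_num [Nat.choose]; ring
        _ ≤ 5 * (0.2244 * (2 / 3) ^ 3) := by gcongr
        _ ≤ 0.333 := by norm_num
    · calc ((5:ℕ).choose 2 : ℝ) * (ρ ^ 2 * q ^ (5 - 2)) = 10 * ((ρ * q) * (ρ * q ^ 2)) := by norm_num [Nat.choose]; ring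
        _ ≤ 10 * (0.2244 * (4 / 27)) := by gcongr
        _ ≤ 0.333 := by norm_num
    · calc ((5:ℕ).choose 3 : ℝ) * (ρ ^ 3 * q ^ (5 - 3)) = 10 * ((ρ * q) ^ 2 * ρ) := by norm_num [Nat.choose]; ring
        _ ≤ 10 * (0.2244 ^ 2 * 0.34) := by gcongr
        _ ≤ 0.333 := by norm_num
    · calc ((5:ℕ).choose 4 : ℝ) * (ρ ^ 4 * q ^ (5 - 4)) = 5 * ((ρ * q) * ρ ^ 3) := by norm_num [Nat.choose]; ring
        _ ≤ 5 * (0.2244 * 0.34 ^ 3) := by gcongr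
        _ ≤ 0.333 := by norm_num
    · calc ((5:ℕ).choose 5 : ℝ) * (ρ ^ 5 * q ^ (5 - 5)) = ρ ^ 5 := by norm_num [Nat.choose]
        _ ≤ 0.34 ^ 5 := by gcongr
        _ ≤ 0.333 := by norm_num

theorem MPB_b8 (ρ : ℝ) (h1 : 1 / 3 ≤ ρ) (h2 : ρ ≤ 0.34) : ∀ i, mu 8 i ρ ≤ 0.28 := by
  intro i
  obtain ⟨q, hq⟩ : ∃ q : ℝ, q = 1 - ρ := ⟨_, rfl⟩
  have hρ0 : 0 ≤ ρ := by linarith
  have hq0 : 0 ≤ q := by norm_num at h2; linarith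
  have hq1 : q ≤ 2 / 3 := by linarith
  have hA : ρ * q ≤ 0.2244 := by
    rw [hq]; norm_num at h2 ⊢
    nlinarith [mul_nonneg (sub_nonneg.mpr h2) (by linarith : (0:ℝ) ≤ 33/50 - ρ)]
  have hG : ρ * q ^ 2 ≤ 4 / 27 := by
    rw [hq]; norm_num at h2
    nlinarith [mul_nonneg (sq_nonneg (ρ - 1/3)) (by linarith : (0:ℝ) ≤ 4/3 - ρ)]
  rcases Nat.lt_or_ge 8 i with hi | hi
  · rw [MPB_big 8 i ρ hi]; norm_num
  · unfold mu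
    rw [← hq]
    interval_cases i
    · calc ((8:ℕ).choose 0 : ℝ) * (ρ ^ 0 * q ^ (8 - 0)) = q ^ 8 := by norm_num
        _ ≤ (2 / 3) ^ 8 := by gcongr
        _ ≤ 0.28 := by norm_num
    · calc ((8:ℕ).choose 1 : ℝ) * (ρ ^ 1 * q ^ (8 - 1)) = 8 * ((ρ * q ^ 2) * q ^ 5) := by norm_num [Nat.choose]; ring
        _ ≤ 8 * ((4 / 27) * (2 / 3) ^ 5) := by gcongr
        _ ≤ 0.28 := by norm_num
    · calc ((8:ℕ).choose 2 : ℝ) * (ρ ^ 2 * q ^ (8 - 2)) = 28 * ((ρ * q ^ 2) ^ 2 * q ^ 2) := by norm_num [Nat.choose]; ring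
        _ ≤ 28 * ((4 / 27) ^ 2 * (2 / 3) ^ 2) := by gcongr
        _ ≤ 0.28 := by norm_num
    · calc ((8:ℕ).choose 3 : ℝ) * (ρ ^ 3 * q ^ (8 - 3)) = 56 * ((ρ * q ^ 2) ^ 2 * (ρ * q)) := by norm_num [Nat.choose]; ring
        _ ≤ 56 * ((4 / 27) ^ 2 * 0.2244) := by gcongr
        _ ≤ 0.28 := by norm_num
    · calc ((8:ℕ).choose 4 : ℝ) * (ρ ^ 4 * q ^ (8 - 4)) = 70 * (ρ * q) ^ 4 := by norm_num [Nat.choose]; ring
        _ ≤ 70 * 0.2244 ^ 4 := by gcongr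
        _ ≤ 0.28 := by norm_num
    · calc ((8:ℕ).choose 5 : ℝ) * (ρ ^ 5 * q ^ (8 - 5)) = 56 * ((ρ * q) ^ 3 * ρ ^ 2) := by norm_num [Nat.choose]; ring
        _ ≤ 56 * (0.2244 ^ 3 * 0.34 ^ 2) := by gcongr
        _ ≤ 0.28 := by norm_num
    · calc ((8:ℕ).choose 6 : ℝ) * (ρ ^ 6 * q ^ (8 - 6)) = 28 * ((ρ * q) ^ 2 * ρ ^ 4) := by norm_num [Nat.choose]; ring
        _ ≤ 28 * (0.2244 ^ 2 * 0.34 ^ 4) := by gcongr
        _ ≤ 0.28 := by norm_num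
    · calc ((8:ℕ).choose 7 : ℝ) * (ρ ^ 7 * q ^ (8 - 7)) = 8 * ((ρ * q) * ρ ^ 6) := by norm_num [Nat.choose]; ring
        _ ≤ 8 * (0.2244 * 0.34 ^ 6) := by gcongr
        _ ≤ 0.28 := by norm_num
    · calc ((8:ℕ).choose 8 : ℝ) * (ρ ^ 8 * q ^ (8 - 8)) = ρ ^ 8 := by norm_num [Nat.choose]
        _ ≤ 0.34 ^ 8 := by gcongr
        _ ≤ 0.28 := by norm_num

theorem MPB : MPB_stmt := by
  intro p i ρ h1 h2
  have h0 : 0 ≤ ρ := by linarith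
  have h3 : ρ ≤ 1 := by norm_num at h2; linarith
  constructor
  · intro hp
    obtain ⟨d, rfl⟩ := Nat.exists_eq_add_of_le hp
    exact MPB_all 5 ρ 0.333 (by norm_num) h0 h3 (MPB_b5 ρ h1 h2) d i
  · intro hp
    obtain ⟨d, rfl⟩ := Nat.exists_eq_add_of_le hp
    exact MPB_all 8 ρ 0.28 (by norm_num) h0 h3 (MPB_b8 ρ h1 h2) d i

end Pool.Agent.helper37.MW
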